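import Pool.Agent.W761.CB.Stm0

set_option autoImplicit false
set_option linter.all false

/-! Project CB (helper761): the Mecke formula. -/

open MeasureTheory
open scoped ENNReal

namespace Pool.Agent.W337.CB

open Pool.Agent.W761.CB

theorem ms_cs {X : Type} (x : X) (γ : Cf X) : ms (cs x γ) = x ::ₘ ms γ := by
  unfold ms cs
  rw [List.ofFn_cons]
  rfl

theorem ms_above {X : Type} {N : ℕ} (x : Fin (N + 1) → X) (i : Fin (N + 1)) :
    ms (⟨N + 1, x⟩ : Cf X) = x i ::ₘ ms (⟨N, fun j => x (i.succAbove j)⟩ : Cf X) := by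
  unfold ms
  simp only
  rw [← Fin.univ_val_map x, ← Fin.univ_val_map (fun j => x (i.succAbove j)),
    Fin.univ_succAbove N i]
  simp only [Finset.cons_val, Multiset.map_cons, Finset.map_val, Multiset.map_map]
  rfl

theorem sum_ms {X : Type} {N : ℕ} (x : Fin N → X) (f : X → ℝ≥0∞) :
    ((ms (⟨N, x⟩ : Cf X)).map f).sum = ∑ i, f (x i) := by
  unfold ms
  simp only [Multiset.map_coe, Multiset.sum_coe, List.map_ofFn, List.sum_ofFn, Function.comp]

theorem meas_mk {X : Type} [MeasurableSpace X] (N : ℕ) :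
    Measurable (fun x : Fin N → X => (⟨N, x⟩ : Cf X)) :=
  measurable_iff_le_map.2 (iInf_le _ N)

theorem fact_id (N : ℕ) : (((N + 1).factorial : ℕ) : ℝ≥0∞)⁻¹ * ((N + 1 : ℕ) : ℝ≥0∞) =
    ((N.factorial : ℕ) : ℝ≥0∞)⁻¹ := by
  rw [Nat.factorial_succ, Nat.cast_mul, ENNReal.mul_inv (Or.inr (ENNReal.natCast_ne_top _))
    (Or.inl (ENNReal.natCast_ne_top _)), mul_comm (((N + 1 : ℕ) : ℝ≥0∞)⁻¹), mul_assoc,
    ENNReal.inv_mul_cancel (by simp) (ENNReal.natCast_ne_top _), mul_one]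

theorem proof_mecke : S_MS → S_LAM → S_MECKE := by
  intro hMS hLAM X _ ν _ h hh
  obtain ⟨m1, -, -, -, m5, -, -⟩ := hMS X
  obtain ⟨sec, -⟩ := hLAM X ν
  -- measurability
  have mL : Measurable (fun γ : Cf X => ((ms γ).map fun x => h x (ms γ)).sum) := by
    have h1 := m5 (Cf X) (fun γ x => h x (ms γ)) (hh.comp measurable_swap)
    exact h1.comp (measurable_id.prodMk measurable_id)
  have mH : Measurable (fun p : X × Cf X => h p.1 (p.1 ::ₘ ms p.2)) := by
    have h1 := hh.comp (measurable_fst.prodMk m1)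
    have h2 : (fun p : X × Cf X => h p.1 (p.1 ::ₘ ms p.2)) =
        (fun p : X × Cf X => h p.1 (ms p.2)) ∘ fun p => (p.1, cs p.1 p.2) := by
      funext p
      simp only [Function.comp, ms_cs]
    rw [h2]
    exact h1
  let J : ℕ → ℝ≥0∞ := fun N => ∫⁻ a, ∫⁻ y : Fin N → X, h a (a ::ₘ ms ⟨N, y⟩)
    ∂(Measure.pi fun _ => ν) ∂ν
  have mHN : ∀ N, Measurable (fun p : X × (Fin N → X) => h p.1 (p.1 ::ₘ ms ⟨N, p.2⟩)) := by
    intro N
    exact mH.comp (measurable_fst.prodMk ((meas_mk N).comp measurable_snd))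
  -- the left side
  have hterm : ∀ (N : ℕ) (i : Fin (N + 1)), ∫⁻ x : Fin (N + 1) → X, h (x i) (ms ⟨N + 1, x⟩)
      ∂(Measure.pi fun _ => ν) = J N := by
    intro N i
    have e := measurePreserving_piFinSuccAbove (fun _ : Fin (N + 1) => ν) i
    have h1 := e.lintegral_comp (mHN N)
    simp only [J]
    rw [← lintegral_prod (fun p : X × (Fin N → X) => h p.1 (p.1 ::ₘ ms ⟨N, p.2⟩))
      (mHN N).aemeasurable]
    rw [← h1]
    refine lintegral_congr fun x => ?_
    rw [ms_above x i]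
    rfl
  have hN : ∀ N : ℕ, ∫⁻ x : Fin (N + 1) → X, ((ms ⟨N + 1, x⟩).map fun t => h t (ms ⟨N + 1, x⟩)).sum
      ∂(Measure.pi fun _ => ν) = ((N + 1 : ℕ) : ℝ≥0∞) * J N := by
    intro N
    have h1 : ∀ x : Fin (N + 1) → X, ((ms ⟨N + 1, x⟩).map fun t => h t (ms ⟨N + 1, x⟩)).sum =
        ∑ i, h (x i) (ms ⟨N + 1, x⟩) := fun x => sum_ms x _
    simp only [h1]
    rw [lintegral_finset_sum]
    · rw [Finset.sum_congr rfl fun i _ => hterm N i, Finset.sum_const, Finset.card_univ,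
        Fintype.card_fin, nsmul_eq_mul]
    · intro i _
      exact hh.comp ((measurable_pi_apply i).prodMk (meas_mk (N + 1)))
  rw [sec _ mL, tsum_eq_zero_add' ENNReal.summable]
  have h0 : ∫⁻ x : Fin 0 → X, ((ms ⟨0, x⟩).map fun t => h t (ms ⟨0, x⟩)).sum
      ∂(Measure.pi fun _ => ν) = 0 := by
    have h1 : ∀ x : Fin 0 → X, ((ms ⟨0, x⟩).map fun t => h t (ms ⟨0, x⟩)).sum = 0 := by
      intro x
      rw [sum_ms]
      simp
    simp only [h1, lintegral_zero]
  rw [h0, mul_zero, zero_add]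
  -- the right side
  have hR : ∀ x : X, ∫⁻ γ, h x (x ::ₘ ms γ) ∂(lam ν) = ∑' N : ℕ, (N.factorial : ℝ≥0∞)⁻¹ *
      ∫⁻ y : Fin N → X, h x (x ::ₘ ms ⟨N, y⟩) ∂(Measure.pi fun _ => ν) := by
    intro x
    exact sec (fun γ => h x (x ::ₘ ms γ)) (mH.comp (measurable_const.prodMk measurable_id))
  simp only [hR]
  rw [lintegral_tsum]
  · refine tsum_congr fun N => ?_
    rw [hN, ← mul_assoc, fact_id, lintegral_const_mul]
    exact (mHN N).lintegral_prod_right'
  · intro N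
    exact ((mHN N).lintegral_prod_right'.const_mul _).aemeasurable

end Pool.Agent.W337.CB
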